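import Mathlib

/-!
# MP_099f24_an, part FV: the Eilenberg inequality for 1-Lipschitz maps `p : ℂ → ℝ`

`∫ (∑_{x ∈ p⁻¹(y)} F x) dy ≤ ∫ F d𝓗¹`, in the form of a measurable majorant of the inner sum.
-/

namespace Pool.Agent.MP099f24

open MeasureTheory Filter Topology Set Metric
open scoped ENNReal

/-- The cells of the grid of mesh `1 / (n + 1)`. -/
def fvCell (n : ℕ) (i : ℤ × ℤ) : Set ℂ :=
  {z | ⌊((n : ℝ) + 1) * z.re⌋ = i.1 ∧ ⌊((n : ℝ) + 1) * z.im⌋ = i.2}

lemma fvCell_measurable (n : ℕ) (i : ℤ × ℤ) : MeasurableSet (fvCell n i) := by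
  have h1 : Measurable (fun z : ℂ => ⌊((n : ℝ) + 1) * z.re⌋) :=
    Int.measurable_floor.comp (Complex.measurable_re.const_mul _)
  have h2 : Measurable (fun z : ℂ => ⌊((n : ℝ) + 1) * z.im⌋) :=
    Int.measurable_floor.comp (Complex.measurable_im.const_mul _)
  exact (h1 (measurableSet_singleton i.1)).inter (h2 (measurableSet_singleton i.2))

lemma fvCell_disjoint (n : ℕ) : Pairwise (Function.onFun Disjoint (fvCell n)) := by
  intro i k hik
  rw [Function.onFun, Set.disjoint_left]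
  rintro z ⟨h1, h2⟩ ⟨h3, h4⟩
  exact hik (Prod.ext (h1.symm.trans h3) (h2.symm.trans h4))

lemma fvCell_iUnion (n : ℕ) : ⋃ i, fvCell n i = univ := by
  refine eq_univ_of_forall fun z => ?_
  exact mem_iUnion.2 ⟨(⌊((n : ℝ) + 1) * z.re⌋, ⌊((n : ℝ) + 1) * z.im⌋), rfl, rfl⟩

lemma fvCell_dist {n : ℕ} {i : ℤ × ℤ} {z z' : ℂ} (hz : z ∈ fvCell n i) (hz' : z' ∈ fvCell n i) :
    dist z z' ≤ 2 / ((n : ℝ) + 1) := by
  have hn : (0 : ℝ) < (n : ℝ) + 1 := by positivity
  have h1 : |z.re - z'.re| ≤ 1 / ((n : ℝ) + 1) := by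
    have := Int.abs_sub_lt_one_of_floor_eq_floor (hz.1.trans hz'.1.symm)
    rw [← mul_sub, abs_mul, abs_of_pos hn] at this
    rw [le_div_iff₀ hn, mul_comm]
    exact this.le
  have h2 : |z.im - z'.im| ≤ 1 / ((n : ℝ) + 1) := by
    have := Int.abs_sub_lt_one_of_floor_eq_floor (hz.2.trans hz'.2.symm)
    rw [← mul_sub, abs_mul, abs_of_pos hn] at this
    rw [le_div_iff₀ hn, mul_comm]
    exact this.le
  rw [Complex.dist_eq]
  refine (Complex.norm_le_abs_re_add_abs_im _).trans ?_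
  rw [Complex.sub_re, Complex.sub_im]
  calc _ ≤ 1 / ((n : ℝ) + 1) + 1 / ((n : ℝ) + 1) := add_le_add h1 h2
    _ = _ := by ring

/-- A finite set is eventually separated by the grids. -/
lemma fvCell_separate (T : Finset ℂ) : ∀ᶠ n : ℕ in atTop, ∀ z ∈ T, ∀ z' ∈ T, ∀ i,
    z ∈ fvCell n i → z' ∈ fvCell n i → z = z' := by
  have h : ∀ z ∈ T, ∀ z' ∈ T, ∀ᶠ n : ℕ in atTop, ∀ i, z ∈ fvCell n i → z' ∈ fvCell n i → z = z' := by
    intro z _ z' _
    rcases eq_or_ne z z' with h | h
    · exact Eventually.of_forall fun n i _ _ => h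
    · have hd : 0 < dist z z' := dist_pos.2 h
      have h1 : Tendsto (fun n : ℕ => 2 / ((n : ℝ) + 1)) atTop (𝓝 0) := by
        have := tendsto_one_div_add_atTop_nhds_zero_nat (𝕜 := ℝ)
        have h2 := this.const_mul 2
        rw [mul_zero] at h2
        refine h2.congr fun n => ?_
        ring
      filter_upwards [h1.eventually (gt_mem_nhds hd)] with n hn i hz hz'
      exact absurd (fvCell_dist hz hz') (not_le.2 hn)
  rw [Filter.eventually_all_finset]
  intro z hz
  rw [Filter.eventually_all_finset]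
  exact h z hz

/-- **Eilenberg inequality** for the counting function. -/
theorem fv_eil_set {p : ℂ → ℝ} (hp : LipschitzWith 1 p) {A : Set ℂ} (hA : MeasurableSet A) :
    ∃ G : ℝ → ℝ≥0∞, Measurable G ∧ (∀ y, ((A ∩ p ⁻¹' {y}).encard : ℝ≥0∞) ≤ G y) ∧
      ∫⁻ y, G y ≤ (μH[1] : Measure ℂ) A := by
  classical
  set B : ℕ → ℤ × ℤ → Set ℝ := fun n i => toMeasurable volume (p '' (A ∩ fvCell n i)) with hB
  have hBm : ∀ n i, MeasurableSet (B n i) := fun n i => measurableSet_toMeasurable _ _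
  set G : ℕ → ℝ → ℝ≥0∞ := fun n y => ∑' i, (B n i).indicator (fun _ => (1 : ℝ≥0∞)) y with hG
  have hGm : ∀ n, Measurable (G n) := fun n =>
    Measurable.tsum fun i => measurable_const.indicator (hBm n i)
  have hGi : ∀ n, ∫⁻ y, G n y ≤ (μH[1] : Measure ℂ) A := by
    intro n
    rw [hG]
    simp only
    rw [lintegral_tsum fun i => (measurable_const.indicator (hBm n i)).aemeasurable]
    have h1 : ∀ i, ∫⁻ y, (B n i).indicator (fun _ => (1 : ℝ≥0∞)) y ≤
        (μH[1] : Measure ℂ) (A ∩ fvCell n i) := by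
      intro i
      rw [lintegral_indicator (hBm n i), setLIntegral_one, hB]
      simp only
      rw [measure_toMeasurable, ← hausdorffMeasure_real]
      have := hp.hausdorffMeasure_image_le (d := 1) zero_le_one (A ∩ fvCell n i)
      simpa using this
    refine (ENNReal.tsum_le_tsum h1).trans ?_
    rw [← measure_iUnion]
    · refine measure_mono (iUnion_subset fun i => inter_subset_left)
    · intro i k hik
      exact (fvCell_disjoint n hik).mono inter_subset_right inter_subset_right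
    · exact fun i => hA.inter (fvCell_measurable n i)
  refine ⟨fun y => liminf (fun n => G n y) atTop, .liminf hGm, ?_, ?_⟩
  · intro y
    -- it is enough to bound finite subsets
    have key : ∀ T : Finset ℂ, (T : Set ℂ) ⊆ A ∩ p ⁻¹' {y} →
        ((T.card : ℕ) : ℝ≥0∞) ≤ liminf (fun n => G n y) atTop := by
      intro T hT
      refine le_liminf_of_le (by isBoundedDefault) ?_
      filter_upwards [fvCell_separate T] with n hn
      -- the cells of the points of T
      set c : ℂ → ℤ × ℤ := fun z => (⌊((n : ℝ) + 1) * z.re⌋, ⌊((n : ℝ) + 1) * z.im⌋) with hc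
      have hcz : ∀ z, z ∈ fvCell n (c z) := fun z => ⟨rfl, rfl⟩
      have hinj : Set.InjOn c (T : Set ℂ) := by
        intro z hz z' hz' h
        exact hn z hz z' hz' (c z) (hcz z) (by rw [h]; exact hcz z')
      have h1 : ∀ i ∈ T.image c, (B n i).indicator (fun _ => (1 : ℝ≥0∞)) y = 1 := by
        intro i hi
        rw [Finset.mem_image] at hi
        obtain ⟨z, hz, rfl⟩ := hi
        rw [indicator_of_mem]
        refine subset_toMeasurable _ _ ⟨z, ⟨(hT hz).1, hcz z⟩, ?_⟩
        exact (hT hz).2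
      calc ((T.card : ℕ) : ℝ≥0∞) = ((T.image c).card : ℝ≥0∞) := by
            rw [Finset.card_image_of_injOn hinj]
        _ = ∑ i ∈ T.image c, (B n i).indicator (fun _ => (1 : ℝ≥0∞)) y := by
            rw [Finset.sum_congr rfl h1]
            simp
        _ ≤ G n y := ENNReal.sum_le_tsum _
    by_cases hfin : (A ∩ p ⁻¹' {y}).Finite
    · have h1 := key hfin.toFinset (by simp)
      rw [hfin.encard_eq_coe_toFinset_card]
      exact_mod_cast h1
    · have hinf : (A ∩ p ⁻¹' {y}).Infinite := hfin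
      rw [hinf.encard_eq]
      have h2 : liminf (fun n => G n y) atTop = ⊤ := by
        refine ENNReal.eq_top_of_forall_nnreal_le fun r => ?_
        obtain ⟨N, hN⟩ := exists_nat_gt r
        obtain ⟨T, hT, hTc⟩ := hinf.exists_subset_card_eq N
        have h3 := key T hT
        rw [hTc] at h3
        refine le_trans ?_ h3
        exact_mod_cast hN.le
      show _ ≤ liminf (fun n => G n y) atTop
      rw [h2]
      exact le_top
  · refine (lintegral_liminf_le hGm).trans ?_
    refine liminf_le_of_le (by isBoundedDefault) ?_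
    intro b hb
    obtain ⟨n, hn⟩ := hb.exists
    exact hn.trans (hGi n)

/-- **Weighted Eilenberg inequality.** -/
theorem fv_eil {p : ℂ → ℝ} (hp : LipschitzWith 1 p) {F : ℂ → ℝ≥0∞} (hF : Measurable F) :
    ∃ G : ℝ → ℝ≥0∞, Measurable G ∧ (∀ y, ∑' x : (p ⁻¹' {y} : Set ℂ), F x ≤ G y) ∧
      ∫⁻ y, G y ≤ ∫⁻ x, F x ∂(μH[1] : Measure ℂ) := by
  refine Measurable.ennreal_induction (motive := fun F => ∃ G : ℝ → ℝ≥0∞, Measurable G ∧
    (∀ y, ∑' x : (p ⁻¹' {y} : Set ℂ), F x ≤ G y) ∧
      ∫⁻ y, G y ≤ ∫⁻ x, F x ∂(μH[1] : Measure ℂ)) ?_ ?_ ?_ hF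
  · intro c A hA
    obtain ⟨G, hGm, hG1, hG2⟩ := fv_eil_set hp hA
    refine ⟨fun y => c * G y, hGm.const_mul c, fun y => ?_, ?_⟩
    · have h1 : ∑' x : (p ⁻¹' {y} : Set ℂ), A.indicator (fun _ => c) (x : ℂ) =
          c * ((A ∩ p ⁻¹' {y}).encard : ℝ≥0∞) := by
        rw [← ENNReal.tsum_set_one, ← ENNReal.tsum_mul_left,
          tsum_subtype (A ∩ p ⁻¹' {y}) (fun _ => c * 1),
          tsum_subtype (p ⁻¹' {y}) (A.indicator fun _ => c), mul_one]
        congr 1
        funext x
        by_cases h1 : x ∈ A <;> by_cases h2 : x ∈ p ⁻¹' {y} <;> simp_all [indicator]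
      rw [h1]
      exact mul_le_mul' le_rfl (hG1 y)
    · rw [lintegral_const_mul _ hGm, lintegral_indicator_const hA]
      exact mul_le_mul' le_rfl hG2
  · intro f g _ hf hg hf' hg'
    obtain ⟨G, hGm, hG1, hG2⟩ := hf'
    obtain ⟨H, hHm, hH1, hH2⟩ := hg'
    refine ⟨fun y => G y + H y, hGm.add hHm, fun y => ?_, ?_⟩
    · simp only [Pi.add_apply]
      rw [ENNReal.tsum_add]
      exact add_le_add (hG1 y) (hH1 y)
    · simp only [Pi.add_apply]
      rw [lintegral_add_left hGm, lintegral_add_left hf]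
      exact add_le_add hG2 hH2
  · intro f hf hmono hf'
    choose G hGm hG1 hG2 using hf'
    refine ⟨fun y => liminf (fun n => G n y) atTop, .liminf hGm, fun y => ?_, ?_⟩
    · rw [ENNReal.tsum_eq_iSup_sum]
      refine iSup_le fun s => ?_
      have h1 : ∑ x ∈ s, (⨆ n, f n (x : ℂ)) = ⨆ n, ∑ x ∈ s, f n (x : ℂ) :=
        ENNReal.finsetSum_iSup_of_monotone fun x n m hnm => hmono hnm x
      rw [h1]
      refine iSup_le fun n => ?_
      refine le_liminf_of_le (by isBoundedDefault) ?_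
      filter_upwards [eventually_ge_atTop n] with m hm
      calc ∑ x ∈ s, f n (x : ℂ) ≤ ∑ x ∈ s, f m (x : ℂ) := Finset.sum_le_sum fun x _ => hmono hm x
        _ ≤ ∑' x : (p ⁻¹' {y} : Set ℂ), f m (x : ℂ) := ENNReal.sum_le_tsum s
        _ ≤ G m y := hG1 m y
    · refine (lintegral_liminf_le hGm).trans ?_
      refine liminf_le_of_le (by isBoundedDefault) ?_
      intro b hb
      obtain ⟨n, hn⟩ := hb.exists
      refine (hn.trans (hG2 n)).trans (lintegral_mono fun x => ?_)
      exact le_iSup (fun n => f n x) n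

/-- Almost every fibre of a set of finite length is finite. -/
theorem fv_eil_finite {p : ℂ → ℝ} (hp : LipschitzWith 1 p) {A : Set ℂ} (hA : MeasurableSet A)
    (hfin : (μH[1] : Measure ℂ) A < ⊤) : ∀ᵐ y : ℝ, (A ∩ p ⁻¹' {y}).Finite := by
  obtain ⟨G, hGm, hG1, hG2⟩ := fv_eil_set hp hA
  filter_upwards [ae_lt_top hGm (hG2.trans_lt hfin).ne] with y hy
  have h1 := (hG1 y).trans_lt hy
  rw [← Set.encard_lt_top_iff]
  exact_mod_cast h1

end Pool.Agent.MP099f24
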