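import Mathlib

/-!
# MP_099f24_an, part FV: functions on the line, locally Lipschitz off a finite set
-/

namespace Pool.Agent.MP099f24

open MeasureTheory Filter Topology Set Metric
open scoped ENNReal NNReal ContDiff

/-- punctured one-sided neighbourhoods free of `T` -/
lemma fvl_gap (T : Finset ℝ) (t : ℝ) : ∃ ε > 0, (∀ s ∈ Ioo t (t + ε), s ∉ T) ∧
    ∀ s ∈ Ioo (t - ε) t, s ∉ T := by
  have h : ((T.erase t : Finset ℝ) : Set ℝ)ᶜ ∈ 𝓝 t := by
    refine (Finset.isClosed _).isOpen_compl.mem_nhds ?_
    simp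
  obtain ⟨ε, hε, hball⟩ := Metric.mem_nhds_iff.1 h
  refine ⟨ε, hε, ?_, ?_⟩
  · intro s hs hsT
    have h1 : s ∈ ball t ε := by
      rw [mem_ball, Real.dist_eq, abs_of_pos (by linarith [hs.1])]
      linarith [hs.2]
    exact hball h1 (by simp [hsT, hs.1.ne'])
  · intro s hs hsT
    have h1 : s ∈ ball t ε := by
      rw [mem_ball, Real.dist_eq, abs_of_neg (by linarith [hs.2])]
      linarith [hs.1]
    exact hball h1 (by simp [hsT, hs.2.ne])

/-- A function locally constant off a finite set is a step function. -/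
theorem fvl_step {S : ℝ → ℝ} {T : Finset ℝ} (hS : ∀ t ∉ T, ∀ᶠ s in 𝓝 t, S s = S t) :
    ∃ r l : ℝ → ℝ, (∀ t, ∀ᶠ s in 𝓝[>] t, S s = r t) ∧ (∀ t, ∀ᶠ s in 𝓝[<] t, S s = l t) ∧
      ∃ c : ℝ, ∀ x ∉ T, S x = c + ∑ t ∈ T, if t < x then r t - l t else 0 := by
  classical
  -- constancy on intervals free of `T`
  have hconst : ∀ I : Set ℝ, IsPreconnected I → (∀ s ∈ I, s ∉ T) → ∀ x ∈ I, ∀ y ∈ I, S x = S y := by
    intro I hI hIT x hx y hy
    refine hI.induction₂ (fun x y => S x = S y) ?_ ?_ ?_ hx hy
    · intro z hz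
      have h1 := hS z (hIT z hz)
      exact mem_nhdsWithin_of_mem_nhds (h1.mono fun s hs => hs.symm)
    · intro a b c _ _ _ h1 h2
      exact h1.trans h2
    · intro a b _ _ h1
      exact h1.symm
  have hr : ∀ t, ∃ a, ∀ᶠ s in 𝓝[>] t, S s = a := by
    intro t
    obtain ⟨ε, hε, h1, -⟩ := fvl_gap T t
    refine ⟨S (t + ε / 2), ?_⟩
    filter_upwards [Ioo_mem_nhdsGT (show t < t + ε by linarith)] with s hs
    exact hconst (Ioo t (t + ε)) isPreconnected_Ioo h1 s hs (t + ε / 2)
      ⟨by linarith, by linarith⟩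
  have hl : ∀ t, ∃ a, ∀ᶠ s in 𝓝[<] t, S s = a := by
    intro t
    obtain ⟨ε, hε, -, h1⟩ := fvl_gap T t
    refine ⟨S (t - ε / 2), ?_⟩
    filter_upwards [Ioo_mem_nhdsLT (show t - ε < t by linarith)] with s hs
    exact hconst (Ioo (t - ε) t) isPreconnected_Ioo h1 s hs (t - ε / 2)
      ⟨by linarith, by linarith⟩
  choose r hr using hr
  choose l hl using hl
  refine ⟨r, l, hr, hl, ?_⟩
  -- off `T` both one-sided values agree with the value
  have hrT : ∀ t ∉ T, r t = S t := by
    intro t ht
    obtain ⟨s, hs1, hs2⟩ := ((hr t).and ((hS t ht).filter_mono nhdsWithin_le_nhds)).exists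
    rw [← hs1, hs2]
  have hlT : ∀ t ∉ T, l t = S t := by
    intro t ht
    obtain ⟨s, hs1, hs2⟩ := ((hl t).and ((hS t ht).filter_mono nhdsWithin_le_nhds)).exists
    rw [← hs1, hs2]
  set H : ℝ → ℝ := fun x => l x - ∑ t ∈ T, if t < x then r t - l t else 0 with hH
  have hHloc : IsLocallyConstant H := by
    rw [IsLocallyConstant.iff_eventually_eq]
    intro x
    obtain ⟨ε, hε, h1, h2⟩ := fvl_gap T x
    have hleft : ∀ᶠ y in 𝓝[<] x, H y = H x := by
      filter_upwards [Ioo_mem_nhdsLT (show x - ε < x by linarith), hl x] with y hy hyl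
      have e1 : l y = l x := by rw [hlT y (h2 y hy), hyl]
      have e2 : ∑ t ∈ T, (if t < y then r t - l t else 0) =
          ∑ t ∈ T, if t < x then r t - l t else 0 := by
        refine Finset.sum_congr rfl fun t ht => ?_
        by_cases h3 : t < y
        · rw [if_pos h3, if_pos (h3.trans hy.2)]
        · rw [if_neg h3]
          by_cases h4 : t < x
          · exfalso
            rcases eq_or_lt_of_le (not_lt.1 h3) with h5 | h5
            · exact h2 y hy (h5 ▸ ht)
            · exact h2 t ⟨hy.1.trans h5, h4⟩ ht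
          · rw [if_neg h4]
      simp only [hH, e1, e2]
    have hright : ∀ᶠ y in 𝓝[>] x, H y = H x := by
      filter_upwards [Ioo_mem_nhdsGT (show x < x + ε by linarith), hr x] with y hy hyr
      have e1 : l y = r x := by rw [hlT y (h1 y hy), hyr]
      have e2 : ∑ t ∈ T, (if t < y then r t - l t else 0) =
          (∑ t ∈ T, if t < x then r t - l t else 0) + (r x - l x) := by
        have e3 : ∀ t ∈ T, (if t < y then r t - l t else 0) =
            (if t < x then r t - l t else 0) + if t = x then r x - l x else 0 := by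
          intro t ht
          rcases lt_trichotomy t x with h3 | h3 | h3
          · rw [if_pos (h3.trans hy.1), if_pos h3, if_neg h3.ne, add_zero]
          · subst h3
            rw [if_pos hy.1, if_neg (lt_irrefl _), if_pos rfl, zero_add]
          · rw [if_neg (not_lt.2 h3.le), if_neg h3.ne', add_zero]
            by_cases h4 : t < y
            · exact absurd ht (h1 t ⟨h3, h4.trans hy.2⟩)
            · rw [if_neg h4]
        rw [Finset.sum_congr rfl e3, Finset.sum_add_distrib, Finset.sum_ite_eq']
        congr 1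
        by_cases hx : x ∈ T
        · rw [if_pos hx]
        · rw [if_neg hx, hrT x hx, hlT x hx, sub_self]
      simp only [hH, e1, e2]
      ring
    have h3 : ∀ᶠ y in 𝓝[≠] x, H y = H x := by
      rw [← Iio_union_Ioi, nhdsWithin_union, eventually_sup]
      exact ⟨hleft, hright⟩
    rw [eventually_nhdsWithin_iff] at h3
    filter_upwards [h3] with y hy
    by_cases hyx : y = x
    · rw [hyx]
    · exact hy hyx
  refine ⟨H 0, fun x hx => ?_⟩
  have h1 : H x = H 0 := hHloc.apply_eq_of_isPreconnected isPreconnected_univ (mem_univ _)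
    (mem_univ _)
  rw [← h1, hH]
  simp only
  rw [hlT x hx]
  ring

/-- Integration by parts for a primitive. -/
theorem fvl_prim {G : ℝ → ℝ} (hG : Integrable G) {φ : ℝ → ℝ} (hφ : ContDiff ℝ 1 φ)
    (hφc : HasCompactSupport φ) :
    ∫ t, (∫ s in (0 : ℝ)..t, G s) * deriv φ t = - ∫ t, G t * φ t := by
  obtain ⟨R, hR⟩ := hφc.isBounded.subset_closedBall 0
  have hsub : ∀ t, φ t ≠ 0 → t ∈ Icc (-R) R := by
    intro t ht
    have := hR (subset_tsupport φ ht)
    rw [Real.closedBall_eq_Icc, zero_sub, zero_add] at this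
    exact this
  set A : ℝ := max R 0 + 1 with hA
  have hA0 : 0 < A := by positivity
  have hRA : R < A := by rw [hA]; linarith [le_max_left R 0]
  have hφA : φ A = 0 := by
    by_contra h
    linarith [(hsub A h).2]
  have hφA' : φ (-A) = 0 := by
    by_contra h
    linarith [(hsub (-A) h).1]
  have hAA : -A ≤ A := by linarith
  have hout : ∀ t, t ∉ Ioc (-A) A → φ t = 0 := by
    intro t ht
    by_contra h
    have := hsub t h
    exact ht ⟨by linarith [this.1], by linarith [this.2]⟩
  have hdout : ∀ t, t ∉ Ioc (-A) A → deriv φ t = 0 := by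
    intro t ht
    have h1 : t ∉ tsupport φ := by
      intro h2
      have h3 := hR h2
      rw [Real.closedBall_eq_Icc, zero_sub, zero_add] at h3
      exact ht ⟨by linarith [h3.1], by linarith [h3.2]⟩
    have h4 : t ∉ tsupport (deriv φ) := fun h5 => h1 (closure_minimal support_deriv_subset (isClosed_tsupport φ) h5)
    exact image_eq_zero_of_notMem_tsupport h4
  have hGi : IntervalIntegrable G volume (-A) A := hG.intervalIntegrable
  set P : ℝ → ℝ := fun t => ∫ s in (0 : ℝ)..t, G s with hP
  have h0 : (0 : ℝ) ∈ uIcc (-A) A := by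
    rw [uIcc_of_le hAA]
    exact ⟨by linarith, hA0.le⟩
  have hPac : AbsolutelyContinuousOnInterval P (-A) A :=
    hGi.absolutelyContinuousOnInterval_intervalIntegral h0
  have hφac : AbsolutelyContinuousOnInterval φ (-A) A :=
    hφ.contDiffOn.absolutelyContinuousOnInterval
  have h3 := hPac.integral_mul_deriv_eq_deriv_mul hφac
  rw [hφA, hφA', mul_zero, mul_zero, sub_zero, zero_sub] at h3
  have h4 : ∫ x in (-A)..A, deriv P x * φ x = ∫ x in (-A)..A, G x * φ x := by
    apply intervalIntegral.integral_congr_ae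
    filter_upwards [hGi.ae_hasDerivAt_integral] with x hx hx'
    rw [(hx (uIoc_subset_uIcc hx') 0 h0).deriv]
  rw [h4, intervalIntegral.integral_of_le hAA, intervalIntegral.integral_of_le hAA,
    setIntegral_eq_integral_of_forall_compl_eq_zero (fun t ht => by rw [hdout t ht, mul_zero]),
    setIntegral_eq_integral_of_forall_compl_eq_zero (fun t ht => by rw [hout t ht, mul_zero])] at h3
  exact h3

theorem fv_line {F G : ℝ → ℝ} {T : Finset ℝ}
    (hlip : ∀ t ∉ T, ∃ (L : ℝ≥0), ∃ s ∈ 𝓝 t, LipschitzOnWith L F s)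
    (hd : ∀ᵐ t, t ∉ T → HasDerivAt F (G t) t) (hG : Integrable G) :
    ∃ r l : ℝ → ℝ, (∀ t, Tendsto F (𝓝[>] t) (𝓝 (r t))) ∧ (∀ t, Tendsto F (𝓝[<] t) (𝓝 (l t))) ∧
      ∀ φ : ℝ → ℝ, ContDiff ℝ 1 φ → HasCompactSupport φ →
        ∫ t, (F t * deriv φ t + G t * φ t) = - ∑ t ∈ T, φ t * (r t - l t) := by
  classical
  set P : ℝ → ℝ := fun t => ∫ s in (0 : ℝ)..t, G s with hP
  have hPc : Continuous P := intervalIntegral.continuous_primitive
    (fun a b => hG.intervalIntegrable) 0
  set S : ℝ → ℝ := fun t => F t - P t with hS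
  have hTne : ∀ᵐ t : ℝ, t ∉ T := by
    have : (volume : Measure ℝ) (T : Set ℝ) = 0 := T.finite_toSet.measure_zero _
    exact measure_eq_zero_iff_ae_notMem.1 this
  have hSloc : ∀ t ∉ T, ∀ᶠ s in 𝓝 t, S s = S t := by
    intro t ht
    obtain ⟨L, s, hs, hL⟩ := hlip t ht
    obtain ⟨ε, hε, hball⟩ := Metric.mem_nhds_iff.1 hs
    filter_upwards [Metric.ball_mem_nhds t hε] with x hx
    have hsub : uIcc t x ⊆ s := by
      refine Subset.trans ?_ hball
      rw [← segment_eq_uIcc]
      exact (convex_ball t ε).segment_subset (mem_ball_self hε) hx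
    have hac : AbsolutelyContinuousOnInterval F t x :=
      (hL.mono hsub).absolutelyContinuousOnInterval
    have h1 := hac.integral_deriv_eq_sub
    have h2 : ∫ y in t..x, deriv F y = ∫ y in t..x, G y := by
      apply intervalIntegral.integral_congr_ae
      filter_upwards [hd, hTne] with y hy hyT _
      exact (hy hyT).deriv
    rw [h2] at h1
    have h3 : P x - P t = ∫ y in t..x, G y :=
      intervalIntegral.integral_interval_sub_left hG.intervalIntegrable hG.intervalIntegrable
    simp only [hS]
    linarith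
  obtain ⟨r₀, l₀, hr₀, hl₀, c, hc⟩ := fvl_step hSloc
  refine ⟨fun t => r₀ t + P t, fun t => l₀ t + P t, fun t => ?_, fun t => ?_, ?_⟩
  · have h1 : Tendsto (fun s => S s + P s) (𝓝[>] t) (𝓝 (r₀ t + P t)) := by
      refine Tendsto.add ?_ (hPc.continuousAt.tendsto.mono_left nhdsWithin_le_nhds)
      exact tendsto_const_nhds.congr' ((hr₀ t).mono fun s hs => hs.symm)
    refine h1.congr fun s => ?_
    simp only [hS]
    ring
  · have h1 : Tendsto (fun s => S s + P s) (𝓝[<] t) (𝓝 (l₀ t + P t)) := by
      refine Tendsto.add ?_ (hPc.continuousAt.tendsto.mono_left nhdsWithin_le_nhds)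
      exact tendsto_const_nhds.congr' ((hl₀ t).mono fun s hs => hs.symm)
    refine h1.congr fun s => ?_
    simp only [hS]
    ring
  · intro φ hφ hφc
    have hdφ : Continuous (deriv φ) := hφ.continuous_deriv (by simp)
    have hdφc : HasCompactSupport (deriv φ) := hφc.deriv
    have idφ : Integrable (deriv φ) := hdφ.integrable_of_hasCompactSupport hdφc
    obtain ⟨B, hB⟩ := hφ.continuous.bounded_above_of_compact_support hφc
    have iGφ : Integrable fun t => G t * φ t :=
      hG.mul_bdd (c := B) hφ.continuous.aestronglyMeasurable (Eventually.of_forall hB)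
    have iP : Integrable fun t => P t * deriv φ t :=
      (hPc.mul hdφ).integrable_of_hasCompactSupport hdφc.mul_left
    -- the step part
    have hSint : (fun t => S t * deriv φ t) =ᵐ[volume] fun x => c * deriv φ x +
        ∑ t ∈ T, (r₀ t - l₀ t) * (Ioi t).indicator (deriv φ) x := by
      filter_upwards [hTne] with x hx
      rw [hc x hx, add_mul, Finset.sum_mul]
      congr 1
      refine Finset.sum_congr rfl fun t _ => ?_
      by_cases h1 : t < x
      · rw [if_pos h1, indicator_of_mem (mem_Ioi.2 h1)]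
      · have h2 : x ∉ Ioi t := fun h2 => h1 h2
        rw [if_neg h1, indicator_of_notMem h2, zero_mul, mul_zero]
    have i1 : ∀ t ∈ T, Integrable fun x => (r₀ t - l₀ t) * (Ioi t).indicator (deriv φ) x :=
      fun t _ => (idφ.indicator measurableSet_Ioi).const_mul _
    have hSval : ∫ t, S t * deriv φ t = - ∑ t ∈ T, φ t * (r₀ t - l₀ t) := by
      rw [integral_congr_ae hSint, integral_add (idφ.const_mul c)
        (integrable_finsetSum _ i1), integral_const_mul, integral_finsetSum _ i1]
      have e1 : ∫ x, deriv φ x = 0 := by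
        have := integral_of_hasDerivAt_of_tendsto (f := φ) (f' := deriv φ) (m := 0) (n := 0)
          (fun x => (hφ.differentiable (by simp) x).hasDerivAt) idφ
          (hφc.is_zero_at_infty.mono_left atBot_le_cocompact)
          (hφc.is_zero_at_infty.mono_left atTop_le_cocompact)
        simpa using this
      rw [e1, mul_zero, zero_add, ← Finset.sum_neg_distrib]
      refine Finset.sum_congr rfl fun t _ => ?_
      rw [integral_const_mul, integral_indicator measurableSet_Ioi,
        hφc.integral_Ioi_deriv_eq hφ t]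
      ring
    have iS : Integrable fun t => S t * deriv φ t := by
      refine Integrable.congr ?_ hSint.symm
      exact (idφ.const_mul c).add (integrable_finsetSum _ i1)
    have hdec : (fun t => F t * deriv φ t + G t * φ t) =
        fun t => S t * deriv φ t + P t * deriv φ t + G t * φ t := by
      funext t
      simp only [hS]
      ring
    have iSP : Integrable fun t => S t * deriv φ t + P t * deriv φ t := iS.add iP
    rw [hdec, integral_add iSP iGφ, integral_add iS iP, hSval, fvl_prim hG hφ hφc]
    have e2 : ∀ t ∈ T, φ t * (r₀ t + P t - (l₀ t + P t)) = φ t * (r₀ t - l₀ t) := by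
      intro t _
      ring
    rw [Finset.sum_congr rfl e2]
    ring

end Pool.Agent.MP099f24
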