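import Mathlib
import Pool.Agent.Lib.MP_099f24_an.ST.Bound
import Pool.Agent.Lib.MP_099f24_an.FV.Eilenberg
import Pool.Agent.Lib.MP_099f24_an.FV.Line

/-!
# MP_099f24_an, part FV: slicing of the singular part in a direction
-/

namespace Pool.Agent.MP099f24

open MeasureTheory Filter Topology Set Metric
open scoped ENNReal NNReal ContDiff

/-- the point of the line number `y` in the direction `v` -/
noncomputable def fvx (v : ℂ) (y t : ℝ) : ℂ := v * (t + y * Complex.I)

/-- the number of the line in the direction `v` through `x` -/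
noncomputable def fvp (v x : ℂ) : ℝ := (x * (starRingEnd ℂ) v).im

lemma fvp_lip {v : ℂ} (hv : ‖v‖ = 1) : LipschitzWith 1 (fvp v) := by
  refine LipschitzWith.of_dist_le_mul fun x y => ?_
  rw [NNReal.coe_one, one_mul, Real.dist_eq, fvp, fvp, ← Complex.sub_im, ← sub_mul, dist_eq_norm]
  refine (Complex.abs_im_le_norm _).trans ?_
  rw [norm_mul, Complex.norm_conj, hv, mul_one]

lemma fvp_fvx {v : ℂ} (hv : ‖v‖ = 1) (y t : ℝ) : fvp v (fvx v y t) = y := by
  have h1 : v * (starRingEnd ℂ) v = 1 := by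
    rw [Complex.mul_conj, Complex.normSq_eq_norm_sq, hv]
    simp
  have h2 : fvx v y t * (starRingEnd ℂ) v = t + y * Complex.I := by
    rw [fvx]
    linear_combination (t + y * Complex.I) * h1
  rw [fvp, h2]
  simp

lemma fvx_fvp {v : ℂ} (hv : ‖v‖ = 1) (x : ℂ) : ∃ t, x = fvx v (fvp v x) t := by
  have h1 : v * (starRingEnd ℂ) v = 1 := by
    rw [Complex.mul_conj, Complex.normSq_eq_norm_sq, hv]
    simp
  refine ⟨(x * (starRingEnd ℂ) v).re, ?_⟩
  rw [fvx, fvp, Complex.re_add_im]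
  linear_combination (-x) * h1

lemma fvx_add (v : ℂ) (y t s : ℝ) : fvx v y t + s • v = fvx v y (t + s) := by
  rw [fvx, fvx, Complex.real_smul]
  push_cast
  ring

lemma fvx_injective {v : ℂ} (hv : ‖v‖ = 1) (y : ℝ) : Function.Injective (fvx v y) := by
  intro t s h
  have hv0 : v ≠ 0 := by
    intro h0
    rw [h0, norm_zero] at hv
    exact zero_ne_one hv
  rw [fvx, fvx] at h
  have h1 := mul_left_cancel₀ hv0 h
  have h2 := congrArg Complex.re h1
  simpa using h2

lemma fvx_hasDerivAt (v : ℂ) (y t : ℝ) : HasDerivAt (fvx v y) v t := by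
  have h1 : HasDerivAt (fun t : ℝ => (t : ℂ)) 1 t := Complex.ofRealCLM.hasDerivAt
  have h2 := (h1.add_const (y * Complex.I)).const_mul v
  rw [mul_one] at h2
  exact h2

lemma fvx_isometry {v : ℂ} (hv : ‖v‖ = 1) (y : ℝ) : Isometry (fvx v y) := by
  refine Isometry.of_dist_eq fun t s => ?_
  rw [dist_eq_norm, fvx, fvx, ← mul_sub, norm_mul, hv, one_mul, dist_eq_norm]
  have : (t : ℂ) + y * Complex.I - (s + y * Complex.I) = ((t - s : ℝ) : ℂ) := by
    push_cast
    ring
  rw [this, Complex.norm_real]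

/-- multiplication by a unit vector -/
noncomputable def fvRot (v : ℂ) (hv : ‖v‖ = 1) : ℂ ≃ₗᵢ[ℝ] ℂ :=
  rotation (⟨v, mem_sphere_zero_iff_norm.2 hv⟩ : Circle)

lemma fvRot_apply {v : ℂ} (hv : ‖v‖ = 1) (z : ℂ) : fvRot v hv z = v * z := rfl

/-- Coordinates adapted to the direction `v`. -/
noncomputable def fvEquiv (v : ℂ) (hv : ‖v‖ = 1) : ℝ × ℝ ≃ᵐ ℂ :=
  (MeasurableEquiv.prodComm.trans Complex.measurableEquivRealProd.symm).trans
    (fvRot v hv).toHomeomorph.toMeasurableEquiv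

lemma fvEquiv_apply {v : ℂ} (hv : ‖v‖ = 1) (y t : ℝ) : fvEquiv v hv (y, t) = fvx v y t := by
  have h1 : fvEquiv v hv (y, t) = v * (Complex.measurableEquivRealProd.symm (t, y)) := rfl
  rw [h1, Complex.measurableEquivRealProd_symm_apply, fvx]
  congr 1
  apply Complex.ext <;> simp

lemma fvEquiv_mp {v : ℂ} (hv : ‖v‖ = 1) :
    MeasurePreserving (fvEquiv v hv) ((volume : Measure ℝ).prod (volume : Measure ℝ))
      (volume : Measure ℂ) := by
  have h1 : MeasurePreserving (Prod.swap : ℝ × ℝ → ℝ × ℝ)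
      ((volume : Measure ℝ).prod volume) ((volume : Measure ℝ).prod volume) :=
    Measure.measurePreserving_swap
  have h2 := Complex.volume_preserving_equiv_real_prod.symm
  have h3 : MeasurePreserving (fvRot v hv : ℂ → ℂ) volume volume :=
    LinearIsometryEquiv.measurePreserving _
  exact h3.comp (h2.comp h1)

/-- Fubini in the coordinates adapted to `v`. -/
lemma fv_integral {v : ℂ} (hv : ‖v‖ = 1) {F : ℂ → ℝ} (hF : Integrable F) :
    ∫ x, F x = ∫ y : ℝ, ∫ t : ℝ, F (fvx v y t) := by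
  have h1 : Integrable (fun p : ℝ × ℝ => F (fvEquiv v hv p))
      ((volume : Measure ℝ).prod (volume : Measure ℝ)) :=
    (fvEquiv_mp hv).integrable_comp_of_integrable hF
  rw [← (fvEquiv_mp hv).integral_comp' F, integral_prod _ h1]
  simp only [fvEquiv_apply]

lemma fv_integrable {v : ℂ} (hv : ‖v‖ = 1) {F : ℂ → ℝ} (hF : Integrable F) :
    ∀ᵐ y : ℝ, Integrable fun t : ℝ => F (fvx v y t) := by
  have h1 : Integrable (fun p : ℝ × ℝ => F (fvEquiv v hv p))
      ((volume : Measure ℝ).prod (volume : Measure ℝ)) :=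
    (fvEquiv_mp hv).integrable_comp_of_integrable hF
  filter_upwards [h1.prod_right_ae] with y hy
  simpa only [fvEquiv_apply] using hy

lemma fv_ae {v : ℂ} (hv : ‖v‖ = 1) {P : ℂ → Prop} (hP : ∀ᵐ x, P x) :
    ∀ᵐ y : ℝ, ∀ᵐ t : ℝ, P (fvx v y t) := by
  have h1 : ∀ᵐ p ∂((volume : Measure ℝ).prod (volume : Measure ℝ)), P (fvEquiv v hv p) :=
    (fvEquiv_mp hv).quasiMeasurePreserving.ae hP
  filter_upwards [Measure.ae_ae_of_ae_prod h1] with y hy
  simpa only [fvEquiv_apply] using hy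

/-- Global data: a bounded function, locally Lipschitz off a closed set of finite length, with
integrable gradient. -/
structure FVData (K : Set ℂ) (M : ℝ) (w : ℂ → ℝ) (g : ℂ → ℂ) : Prop where
  closed : IsClosed K
  fin : (μH[1] : Measure ℂ) K < ⊤
  wm : Measurable w
  wb : ∀ x, |w x| ≤ M
  gm : Measurable g
  lip : ∀ x ∉ K, ∃ (L : ℝ≥0), ∃ t ∈ 𝓝 x, LipschitzOnWith L w t
  hw : ∀ᵐ x, x ∉ K → HasFDerivAt w (innerSL ℝ (g x)) x
  gi : Integrable g

/-- `x` is a point with one-sided limits in the direction `v`. -/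
def FVGood (K : Set ℂ) (w : ℂ → ℝ) (v x : ℂ) (a b : ℝ) : Prop :=
  (∃ δ > 0, ∀ t ∈ Ioc (0 : ℝ) δ, x + t • v ∉ K ∧ x - t • v ∉ K) ∧
    Tendsto (fun t : ℝ => w (x + t • v)) (𝓝[>] 0) (𝓝 a) ∧
    Tendsto (fun t : ℝ => w (x - t • v)) (𝓝[>] 0) (𝓝 b)

/-- The lines on which everything is fine. -/
theorem fv_lines {K : Set ℂ} {M : ℝ} {w : ℂ → ℝ} {g : ℂ → ℂ} (h : FVData K M w g) {v : ℂ}
    (hv : ‖v‖ = 1) : ∀ᵐ y : ℝ, ∃ (T : Finset ℝ) (r l : ℝ → ℝ), (∀ t, t ∈ T ↔ fvx v y t ∈ K) ∧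
      (∀ t ∈ T, FVGood K w v (fvx v y t) (r t) (l t)) ∧
      ∀ φ : ℝ → ℝ, ContDiff ℝ 1 φ → HasCompactSupport φ →
        ∫ t, (w (fvx v y t) * deriv φ t + inner ℝ (g (fvx v y t)) v * φ t) =
          - ∑ t ∈ T, φ t * (r t - l t) := by
  have hgv : Integrable fun x => inner ℝ (g x) v := h.gi.inner_const v
  filter_upwards [fv_eil_finite (fvp_lip hv) h.closed.measurableSet h.fin, fv_integrable hv hgv,
    fv_ae hv h.hw] with y hfin hG hd
  have hfin' : {t | fvx v y t ∈ K}.Finite := by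
    refine Set.Finite.of_finite_image (f := fvx v y) (hfin.subset ?_)
      (fvx_injective hv y).injOn
    rintro _ ⟨t, ht, rfl⟩
    exact ⟨ht, fvp_fvx hv y t⟩
  set T : Finset ℝ := hfin'.toFinset with hT
  have hTm : ∀ t, t ∈ T ↔ fvx v y t ∈ K := fun t => by rw [hT, Set.Finite.mem_toFinset]; rfl
  obtain ⟨r, l, hr, hl, hform⟩ := fv_line (F := fun t => w (fvx v y t))
    (G := fun t => inner ℝ (g (fvx v y t)) v) (T := T) (by
      intro t ht
      rw [hTm] at ht
      obtain ⟨L, s, hs, hL⟩ := h.lip _ ht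
      refine ⟨L * 1, fvx v y ⁻¹' s, (fvx_isometry hv y).continuous.continuousAt hs, ?_⟩
      exact hL.comp (fvx_isometry hv y).lipschitz.lipschitzOnWith (mapsTo_preimage _ _)) (by
      filter_upwards [hd] with t ht htT
      rw [hTm] at htT
      have h1 : HasDerivAt (fun t => w (fvx v y t)) (innerSL ℝ (g (fvx v y t)) v) t :=
        (ht htT).comp_hasDerivAt t (fvx_hasDerivAt v y t)
      rw [innerSL_apply_apply] at h1
      exact h1) hG
  refine ⟨T, r, l, hTm, fun t ht => ⟨?_, ?_, ?_⟩, hform⟩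
  · obtain ⟨ε, hε, h1, h2⟩ := fvl_gap T t
    refine ⟨ε / 2, by positivity, fun s hs => ⟨?_, ?_⟩⟩
    · rw [fvx_add, ← hTm]
      exact h1 _ ⟨by linarith [hs.1], by linarith [hs.2]⟩
    · rw [sub_eq_add_neg, ← neg_smul, fvx_add, ← hTm]
      exact h2 _ ⟨by linarith [hs.2], by linarith [hs.1]⟩
  · have h1 : Tendsto (fun s : ℝ => t + s) (𝓝[>] 0) (𝓝[>] t) := by
      refine tendsto_nhdsWithin_iff.2 ⟨?_, ?_⟩
      · have : Tendsto (fun s : ℝ => t + s) (𝓝 0) (𝓝 (t + 0)) :=
          (continuous_const.add continuous_id).tendsto 0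
        rw [add_zero] at this
        exact this.mono_left nhdsWithin_le_nhds
      · filter_upwards [self_mem_nhdsWithin] with s hs
        simpa using hs
    have h2 := (hr t).comp h1
    refine h2.congr fun s => ?_
    simp only [Function.comp, fvx_add]
  · have h1 : Tendsto (fun s : ℝ => t + -s) (𝓝[>] 0) (𝓝[<] t) := by
      refine tendsto_nhdsWithin_iff.2 ⟨?_, ?_⟩
      · have : Tendsto (fun s : ℝ => t + -s) (𝓝 0) (𝓝 (t + -0)) :=
          (continuous_const.add continuous_id.neg).tendsto 0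
        rw [neg_zero, add_zero] at this
        exact this.mono_left nhdsWithin_le_nhds
      · filter_upwards [self_mem_nhdsWithin] with s hs
        have : (0 : ℝ) < s := hs
        show t + -s < t
        linarith
    have h2 := (hl t).comp h1
    refine h2.congr fun s => ?_
    simp only [Function.comp]
    rw [sub_eq_add_neg, ← neg_smul, fvx_add]

/-- the jump in the direction `v`, computed along a sequence -/
noncomputable def fvJ (w : ℂ → ℝ) (v x : ℂ) : ℝ≥0∞ :=
  limsup (fun n : ℕ => ‖w (x + (1 / ((n : ℝ) + 1)) • v) - w (x - (1 / ((n : ℝ) + 1)) • v)‖ₑ) atTop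

lemma fvJ_measurable {w : ℂ → ℝ} (hw : Measurable w) (v : ℂ) : Measurable (fvJ w v) := by
  refine Measurable.limsup fun n => ?_
  exact ((hw.comp (measurable_id.add_const _)).sub (hw.comp (measurable_id.sub_const _))).enorm

lemma fvJ_eq {K : Set ℂ} {w : ℂ → ℝ} {v x : ℂ} {a b : ℝ} (h : FVGood K w v x a b) :
    fvJ w v x = ‖a - b‖ₑ := by
  have h1 : Tendsto (fun n : ℕ => 1 / ((n : ℝ) + 1)) atTop (𝓝[>] 0) := by
    refine tendsto_nhdsWithin_iff.2 ⟨tendsto_one_div_add_atTop_nhds_zero_nat, ?_⟩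
    exact Eventually.of_forall fun n => mem_Ioi.2 (by positivity)
  have h2 := (h.2.1.comp h1).sub (h.2.2.comp h1)
  exact h2.enorm.limsup_eq

lemma fvJ_le {w : ℂ → ℝ} {M : ℝ} (hw : ∀ x, |w x| ≤ M) (v x : ℂ) :
    fvJ w v x ≤ ENNReal.ofReal (2 * M) := by
  refine limsup_le_of_le (by isBoundedDefault) (Eventually.of_forall fun n => ?_)
  rw [← ofReal_norm]
  refine ENNReal.ofReal_le_ofReal ?_
  refine (norm_sub_le _ _).trans ?_
  rw [Real.norm_eq_abs, Real.norm_eq_abs]
  linarith [hw (x + (1 / ((n : ℝ) + 1)) • v), hw (x - (1 / ((n : ℝ) + 1)) • v)]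

/-- **Slicing.** -/
theorem fv_core {K : Set ℂ} {M : ℝ} {w : ℂ → ℝ} {g : ℂ → ℂ} (h : FVData K M w g) {v : ℂ}
    (hv : ‖v‖ = 1) : ∃ J : ℂ → ℝ≥0∞, Measurable J ∧ (∀ x, J x ≤ ENNReal.ofReal (2 * M)) ∧
      (∀ x ∈ K, J x ≠ 0 → ∃ a b, FVGood K w v x a b ∧ J x = ‖a - b‖ₑ) ∧
      ∀ φ : ℂ → ℝ, ContDiff ℝ ∞ φ → HasCompactSupport φ →
        ‖strT w g φ v‖ₑ ≤ ∫⁻ x in K, ‖φ x‖ₑ * J x ∂(μH[1] : Measure ℂ) := by
  obtain ⟨Z, hZsub, hZm, hZ0⟩ := (exists_measurable_superset_of_null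
    (ae_iff.1 (fv_lines h hv)))
  have hp := fvp_lip hv
  have hpm : Measurable (fvp v) := hp.continuous.measurable
  set J : ℂ → ℝ≥0∞ := (fvp v ⁻¹' Zᶜ).indicator (fvJ w v) with hJ
  have hJm : Measurable J := (fvJ_measurable h.wm v).indicator (hpm hZm.compl)
  have hline : ∀ y ∉ Z, ∃ (T : Finset ℝ) (r l : ℝ → ℝ), (∀ t, t ∈ T ↔ fvx v y t ∈ K) ∧
      (∀ t ∈ T, FVGood K w v (fvx v y t) (r t) (l t)) ∧
      ∀ φ : ℝ → ℝ, ContDiff ℝ 1 φ → HasCompactSupport φ →
        ∫ t, (w (fvx v y t) * deriv φ t + inner ℝ (g (fvx v y t)) v * φ t) =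
          - ∑ t ∈ T, φ t * (r t - l t) := by
    intro y hy
    by_contra hcon
    exact hy (hZsub hcon)
  refine ⟨J, hJm, ?_, ?_, ?_⟩
  · intro x
    refine (indicator_le_self _ _ x).trans (fvJ_le h.wb v x)
  · intro x hxK hx
    have hxZ : fvp v x ∉ Z := by
      intro hxZ
      apply hx
      rw [hJ, indicator_of_notMem]
      exact fun h1 => h1 hxZ
    obtain ⟨T, r, l, hT, hgood, -⟩ := hline _ hxZ
    obtain ⟨t, ht⟩ := fvx_fvp hv x
    have htT : t ∈ T := by
      rw [hT, ← ht]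
      exact hxK
    have h1 := hgood t htT
    rw [← ht] at h1
    refine ⟨r t, l t, h1, ?_⟩
    rw [hJ, indicator_of_mem (show x ∈ fvp v ⁻¹' Zᶜ from hxZ), fvJ_eq h1]
  · intro φ hφ hφc
    obtain ⟨G, hGm, hG1, hG2⟩ := fv_eil hp (F := K.indicator fun x => ‖φ x‖ₑ * J x)
      ((hφ.continuous.measurable.enorm.mul hJm).indicator h.closed.measurableSet)
    rw [lintegral_indicator h.closed.measurableSet] at hG2
    refine le_trans ?_ hG2
    have hφc1 : Continuous fun x => fderiv ℝ φ x v :=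
      (hφ.continuous_fderiv (by simp)).clm_apply continuous_const
    have i1 : Integrable fun x => w x * fderiv ℝ φ x v :=
      str_int1 h.wm h.wb hφc1 (hφc.fderiv_apply (𝕜 := ℝ) v)
    have i2 : Integrable fun x => φ x * inner ℝ (g x) v :=
      str_int2 (Ω := univ) (h.gi.locallyIntegrable.locallyIntegrableOn univ) hφ.continuous hφc
        (subset_univ _) v
    have e1 : strT w g φ v = ∫ y : ℝ, ∫ t : ℝ, (w (fvx v y t) * fderiv ℝ φ (fvx v y t) v +
        φ (fvx v y t) * inner ℝ (g (fvx v y t)) v) := by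
      have i3 : Integrable fun x => w x * fderiv ℝ φ x v + φ x * inner ℝ (g x) v := i1.add i2
      rw [strT, ← integral_add i1 i2, fv_integral hv i3]
    rw [e1]
    refine (enorm_integral_le_lintegral_enorm _).trans (lintegral_mono_ae ?_)
    filter_upwards [measure_eq_zero_iff_ae_notMem.1 hZ0] with y hy
    obtain ⟨T, r, l, hT, hgood, hform⟩ := hline y hy
    have hφy : ContDiff ℝ 1 fun t => φ (fvx v y t) := by
      have h1 : ContDiff ℝ 1 (fvx v y) := by
        unfold fvx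
        exact contDiff_const.mul ((Complex.ofRealCLM.contDiff).add contDiff_const)
      exact (hφ.of_le (by simp)).comp h1
    have hφyc : HasCompactSupport fun t => φ (fvx v y t) :=
      hφc.comp_isClosedEmbedding (fvx_isometry hv y).isClosedEmbedding
    have hφyd : ∀ t, deriv (fun t => φ (fvx v y t)) t = fderiv ℝ φ (fvx v y t) v := fun t =>
      ((hφ.differentiable (by simp) _).hasFDerivAt.comp_hasDerivAt t (fvx_hasDerivAt v y t)).deriv
    have e2 := hform _ hφy hφyc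
    have e3 : ∫ t : ℝ, (w (fvx v y t) * fderiv ℝ φ (fvx v y t) v +
        φ (fvx v y t) * inner ℝ (g (fvx v y t)) v) = - ∑ t ∈ T, φ (fvx v y t) * (r t - l t) := by
      rw [← e2]
      refine integral_congr_ae (Eventually.of_forall fun t => ?_)
      simp only [hφyd]
      ring
    rw [e3, enorm_neg]
    refine (enorm_sum_le _ _).trans ?_
    have e4 : ∀ t ∈ T, ‖φ (fvx v y t) * (r t - l t)‖ₑ =
        K.indicator (fun x => ‖φ x‖ₑ * J x) (fvx v y t) := by
      intro t ht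
      have h1 : fvx v y t ∈ fvp v ⁻¹' Zᶜ := by
        show fvp v (fvx v y t) ∉ Z
        rw [fvp_fvx hv]
        exact hy
      rw [indicator_of_mem ((hT t).1 ht), enorm_mul, hJ, indicator_of_mem h1,
        fvJ_eq (hgood t ht)]
    rw [Finset.sum_congr rfl e4]
    refine le_trans ?_ (hG1 y)
    set F : ℂ → ℝ≥0∞ := K.indicator fun x => ‖φ x‖ₑ * J x with hF
    have hmem : ∀ t, fvx v y t ∈ fvp v ⁻¹' {y} := fun t => fvp_fvx hv y t
    have hinj : Function.Injective fun t => (⟨fvx v y t, hmem t⟩ : (fvp v ⁻¹' {y} : Set ℂ)) := by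
      intro t s hts
      exact fvx_injective hv y (congrArg Subtype.val hts)
    calc ∑ t ∈ T, F (fvx v y t) ≤ ∑' t : ℝ, F (fvx v y t) := ENNReal.sum_le_tsum T
      _ ≤ ∑' x : (fvp v ⁻¹' {y} : Set ℂ), F x :=
          ENNReal.tsum_comp_le_tsum_of_injective hinj fun x => F (x : ℂ)

end Pool.Agent.MP099f24
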