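import Mathlib
import Pool.Agent.Lib.MP_099f24_an.FV.Core
import Pool.Agent.Lib.MP_099f24_an.Calibration

/-!
# MP_099f24_an, part FV: directional jumps (interface to the STRUCT package)
-/

namespace Pool.Agent.MP099f24

open MeasureTheory Filter Topology Set Metric
open scoped ENNReal NNReal ContDiff

/-- A function whose integrals against nonnegative test functions in `B` are nonnegative is
nonnegative almost everywhere in `B`. -/
theorem fv_nonneg {μ : Measure ℂ} [IsFiniteMeasure μ] {B : Set ℂ} (hB : IsOpen B)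
    (hμB : μ Bᶜ = 0) {k : ℂ → ℝ} (hm : Measurable k) (hi : Integrable k μ)
    (H : ∀ φ : ℂ → ℝ, ContDiff ℝ ∞ φ → HasCompactSupport φ → tsupport φ ⊆ B → (∀ x, 0 ≤ φ x) →
      0 ≤ ∫ x, φ x * k x ∂μ) : ∀ᵐ x ∂μ, 0 ≤ k x := by
  by_contra hcon
  have h1 : μ {x | k x < 0} ≠ 0 := by
    intro h0
    apply hcon
    rw [ae_iff]
    simpa only [not_le] using h0
  have h2 : ∃ n : ℕ, μ ({x | k x < -(1 / ((n : ℝ) + 1))} ∩ B) ≠ 0 := by
    by_contra h3
    push Not at h3
    apply h1
    have h4 : {x | k x < 0} ⊆ (⋃ n : ℕ, ({x | k x < -(1 / ((n : ℝ) + 1))} ∩ B)) ∪ Bᶜ := by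
      intro x hx
      by_cases hxB : x ∈ B
      · left
        obtain ⟨n, hn⟩ := exists_nat_one_div_lt (show 0 < -k x by
          have : k x < 0 := hx
          linarith)
        refine mem_iUnion.2 ⟨n, ?_, hxB⟩
        show k x < -(1 / ((n : ℝ) + 1))
        linarith
      · right
        exact hxB
    refine measure_mono_null h4 (measure_union_null (measure_iUnion_null h3) hμB)
  obtain ⟨n, hn⟩ := h2
  set ε : ℝ := 1 / ((n : ℝ) + 1) with hε
  have hε0 : 0 < ε := by positivity
  have hmeas : MeasurableSet ({x | k x < -ε} ∩ B) :=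
    (measurableSet_lt hm measurable_const).inter hB.measurableSet
  obtain ⟨A, hAsub, hAc, hApos⟩ := hmeas.exists_lt_isCompact (μ := μ) (pos_iff_ne_zero.2 hn)
  have hAB : A ⊆ B := hAsub.trans inter_subset_right
  -- cutoff functions
  have hcut : ∀ m : ℕ, ∃ χ : ℂ → ℝ, ContDiff ℝ ∞ χ ∧ HasCompactSupport χ ∧
      tsupport χ ⊆ thickening (1 / ((m : ℝ) + 1)) A ∩ B ∧ (∀ x, 0 ≤ χ x ∧ χ x ≤ 1) ∧
      ∀ x ∈ A, χ =ᶠ[𝓝 x] fun _ => (1 : ℝ) := fun m =>
    cal_cutoff hAc (isOpen_thickening.inter hB)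
      (subset_inter (self_subset_thickening (by positivity) A) hAB)
  choose χ hχ hχc hχs hχ01 hχ1 using hcut
  have hlim : Tendsto (fun m => ∫ x, χ m x * k x ∂μ) atTop (𝓝 (∫ x, A.indicator k x ∂μ)) := by
    refine tendsto_integral_of_dominated_convergence (fun x => ‖k x‖) (fun m => ?_) hi.norm
      (fun m => ?_) ?_
    · exact ((hχ m).continuous.measurable.mul hm).aestronglyMeasurable
    · refine Eventually.of_forall fun x => ?_
      rw [norm_mul]
      have : ‖χ m x‖ ≤ 1 := by
        rw [Real.norm_eq_abs, abs_of_nonneg (hχ01 m x).1]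
        exact (hχ01 m x).2
      calc _ ≤ 1 * ‖k x‖ := by gcongr
        _ = _ := one_mul _
    · refine Eventually.of_forall fun x => ?_
      by_cases hxA : x ∈ A
      · rw [indicator_of_mem hxA]
        refine tendsto_const_nhds.congr fun m => ?_
        rw [(hχ1 m x hxA).self_of_nhds, one_mul]
      · rw [indicator_of_notMem hxA]
        have hpos : 0 < infDist x A ∨ A = ∅ := by
          rcases A.eq_empty_or_nonempty with h0 | h0
          · exact Or.inr h0
          · exact Or.inl ((hAc.isClosed.notMem_iff_infDist_pos h0).1 hxA)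
        rcases hpos with hpos | h0
        · refine tendsto_const_nhds.congr' ?_
          have h5 : Tendsto (fun m : ℕ => 1 / ((m : ℝ) + 1)) atTop (𝓝 0) :=
            tendsto_one_div_add_atTop_nhds_zero_nat
          filter_upwards [h5.eventually (gt_mem_nhds hpos)] with m hm'
          have h6 : x ∉ tsupport (χ m) := by
            intro h7
            have h8 := (hχs m h7).1
            rw [mem_thickening_iff_infDist_lt] at h8
            · linarith
            · by_contra h9
              rw [not_nonempty_iff_eq_empty] at h9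
              rw [h9, infDist_empty] at hpos
              exact lt_irrefl _ hpos
          rw [image_eq_zero_of_notMem_tsupport h6, zero_mul]
        · exfalso
          rw [h0, measure_empty] at hApos
          exact lt_irrefl _ hApos
  have h0 : 0 ≤ ∫ x, A.indicator k x ∂μ := by
    refine ge_of_tendsto' hlim fun m => ?_
    exact H (χ m) (hχ m) (hχc m) ((hχs m).trans inter_subset_right) fun x => (hχ01 m x).1
  rw [integral_indicator hAc.measurableSet] at h0
  have h7 : ∫ x in A, k x ∂μ ≤ ∫ x in A, -ε ∂μ := by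
    refine setIntegral_mono_on hi.integrableOn (integrable_const _) hAc.measurableSet
      fun x hx => ?_
    exact (hAsub hx).1.le
  rw [setIntegral_const, smul_eq_mul] at h7
  have h8 : 0 < μ.real A := by
    rw [Measure.real, ENNReal.toReal_pos_iff]
    exact ⟨hApos, measure_lt_top μ A⟩
  nlinarith

/-- Domination tested on smooth functions. -/
theorem fv_dom {μ : Measure ℂ} [IsFiniteMeasure μ] {B : Set ℂ} (hB : IsOpen B)
    (hμB : μ Bᶜ = 0) {h : ℂ → ℝ} (hm : Measurable h) (hi : Integrable h μ) {J : ℂ → ℝ≥0∞}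
    (hJm : Measurable J) {C : ℝ} (hJ : ∀ x, J x ≤ ENNReal.ofReal C)
    (H : ∀ φ : ℂ → ℝ, ContDiff ℝ ∞ φ → HasCompactSupport φ → tsupport φ ⊆ B →
      ‖∫ x, φ x * h x ∂μ‖ₑ ≤ ∫⁻ x, ‖φ x‖ₑ * J x ∂μ) : ∀ᵐ x ∂μ, ‖h x‖ₑ ≤ J x := by
  set j : ℂ → ℝ := fun x => (J x).toReal with hj
  have hJt : ∀ x, J x ≠ ⊤ := fun x => ((hJ x).trans_lt ENNReal.ofReal_lt_top).ne
  have hjm : Measurable j := hJm.ennreal_toReal
  have hj0 : ∀ x, 0 ≤ j x := fun x => ENNReal.toReal_nonneg
  have hjC : ∀ x, j x ≤ max C 0 := by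
    intro x
    refine ENNReal.toReal_le_of_le_ofReal (le_max_right _ _) ((hJ x).trans ?_)
    exact ENNReal.ofReal_le_ofReal (le_max_left _ _)
  have hji : Integrable j μ := by
    refine Integrable.mono' (integrable_const (max C 0)) hjm.aestronglyMeasurable ?_
    refine Eventually.of_forall fun x => ?_
    rw [Real.norm_eq_abs, abs_of_nonneg (hj0 x)]
    exact hjC x
  have key : ∀ φ : ℂ → ℝ, ContDiff ℝ ∞ φ → HasCompactSupport φ → tsupport φ ⊆ B →
      (∀ x, 0 ≤ φ x) → |∫ x, φ x * h x ∂μ| ≤ ∫ x, φ x * j x ∂μ := by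
    intro φ hφ hφc hφB hφ0
    obtain ⟨D, hD⟩ := hφ.continuous.bounded_above_of_compact_support hφc
    have i1 : Integrable (fun x => φ x * j x) μ :=
      hji.bdd_mul (c := D) hφ.continuous.aestronglyMeasurable (Eventually.of_forall hD)
    have h1 := H φ hφ hφc hφB
    have h2 : ∫⁻ x, ‖φ x‖ₑ * J x ∂μ = ENNReal.ofReal (∫ x, φ x * j x ∂μ) := by
      rw [ofReal_integral_eq_lintegral_ofReal i1
        (Eventually.of_forall fun x => mul_nonneg (hφ0 x) (hj0 x))]
      refine lintegral_congr fun x => ?_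
      rw [ENNReal.ofReal_mul (hφ0 x), hj, ENNReal.ofReal_toReal (hJt x), ← ofReal_norm,
        Real.norm_eq_abs, abs_of_nonneg (hφ0 x)]
    rw [h2, ← ofReal_norm, Real.norm_eq_abs] at h1
    exact (ENNReal.ofReal_le_ofReal_iff
      (integral_nonneg fun x => mul_nonneg (hφ0 x) (hj0 x))).1 h1
  have hsub := fv_nonneg hB hμB (hjm.sub hm) (hji.sub hi) (by
    intro φ hφ hφc hφB hφ0
    obtain ⟨D, hD⟩ := hφ.continuous.bounded_above_of_compact_support hφc
    have i1 : Integrable (fun x => φ x * j x) μ :=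
      hji.bdd_mul (c := D) hφ.continuous.aestronglyMeasurable (Eventually.of_forall hD)
    have i2 : Integrable (fun x => φ x * h x) μ :=
      hi.bdd_mul (c := D) hφ.continuous.aestronglyMeasurable (Eventually.of_forall hD)
    have h1 : ∫ x, φ x * (j - h) x ∂μ = (∫ x, φ x * j x ∂μ) - ∫ x, φ x * h x ∂μ := by
      rw [← integral_sub i1 i2]
      refine integral_congr_ae (Eventually.of_forall fun x => ?_)
      simp only [Pi.sub_apply]
      ring
    rw [h1]
    have h2 := key φ hφ hφc hφB hφ0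
    have h3 := le_abs_self (∫ x, φ x * h x ∂μ)
    linarith)
  have hadd := fv_nonneg hB hμB (hjm.add hm) (hji.add hi) (by
    intro φ hφ hφc hφB hφ0
    obtain ⟨D, hD⟩ := hφ.continuous.bounded_above_of_compact_support hφc
    have i1 : Integrable (fun x => φ x * j x) μ :=
      hji.bdd_mul (c := D) hφ.continuous.aestronglyMeasurable (Eventually.of_forall hD)
    have i2 : Integrable (fun x => φ x * h x) μ :=
      hi.bdd_mul (c := D) hφ.continuous.aestronglyMeasurable (Eventually.of_forall hD)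
    have h1 : ∫ x, φ x * (j + h) x ∂μ = (∫ x, φ x * j x ∂μ) + ∫ x, φ x * h x ∂μ := by
      rw [← integral_add i1 i2]
      refine integral_congr_ae (Eventually.of_forall fun x => ?_)
      simp only [Pi.add_apply]
      ring
    rw [h1]
    have h2 := key φ hφ hφc hφB hφ0
    have h3 := neg_abs_le (∫ x, φ x * h x ∂μ)
    linarith)
  filter_upwards [hsub, hadd] with x h1 h2
  simp only [Pi.sub_apply, Pi.add_apply] at h1 h2
  rw [← ofReal_norm, ← ENNReal.ofReal_toReal (hJt x)]
  refine ENNReal.ofReal_le_ofReal ?_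
  rw [Real.norm_eq_abs, abs_le]
  constructor <;> linarith

/-- the gradient of a cutoff function as a complex number -/
noncomputable def fvGrad (χ : ℂ → ℝ) (x : ℂ) : ℂ :=
  (fderiv ℝ χ x 1 : ℂ) + (fderiv ℝ χ x Complex.I : ℂ) * Complex.I

lemma fvGrad_inner (χ : ℂ → ℝ) (x v : ℂ) : inner ℝ (fvGrad χ x) v = fderiv ℝ χ x v := by
  have h1 : v = v.re • (1 : ℂ) + v.im • Complex.I := by
    apply Complex.ext <;> simp
  conv_rhs => rw [h1, map_add, map_smul, map_smul]
  rw [Complex.inner, fvGrad]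
  simp

/-- Localisation. -/
theorem fv_localize {Ω K : Set ℂ} {M : ℝ} {w : ℂ → ℝ} {g : ℂ → ℂ} (h : StrData Ω K M w g)
    {χ : ℂ → ℝ} (hχ : ContDiff ℝ ∞ χ) (hχc : HasCompactSupport χ) (hχΩ : tsupport χ ⊆ Ω)
    (hχ01 : ∀ x, 0 ≤ χ x ∧ χ x ≤ 1) :
    FVData (K ∩ tsupport χ) M (fun x => χ x * w x)
      (fun x => (χ x : ℂ) * g x + (w x : ℂ) * fvGrad χ x) := by
  have hM0 : 0 ≤ M := (abs_nonneg _).trans (h.wb 0)
  have hgr : Continuous (fvGrad χ) := by
    have h1 : ∀ v : ℂ, Continuous fun x => ((fderiv ℝ χ x v : ℝ) : ℂ) := fun v =>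
      Complex.continuous_ofReal.comp
        ((hχ.continuous_fderiv (by simp)).clm_apply continuous_const)
    exact (h1 1).add ((h1 Complex.I).mul continuous_const)
  have hgrs : ∀ x ∉ tsupport χ, fvGrad χ x = 0 := by
    intro x hx
    have h1 : fderiv ℝ χ x = 0 := fderiv_of_notMem_tsupport ℝ hx
    rw [fvGrad, h1]
    simp
  have hcl : IsClosed (K ∩ tsupport χ) := by
    have h1 : K ∩ tsupport χ = tsupport χ ∩ (Ω \ K)ᶜ := by
      ext x
      constructor
      · rintro ⟨h2, h3⟩
        exact ⟨h3, fun h4 => h4.2 h2⟩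
      · rintro ⟨h2, h3⟩
        refine ⟨?_, h2⟩
        by_contra h4
        exact h3 ⟨hχΩ h2, h4⟩
    rw [h1]
    exact (isClosed_tsupport χ).inter h.rel.isClosed_compl
  refine ⟨hcl, h.fin _ hχc hχΩ, hχ.continuous.measurable.mul h.wm, ?_, ?_, ?_, ?_, ?_⟩
  · intro x
    rw [abs_mul, abs_of_nonneg (hχ01 x).1]
    calc χ x * |w x| ≤ 1 * M := mul_le_mul (hχ01 x).2 (h.wb x) (abs_nonneg _) zero_le_one
      _ = M := one_mul M
  · exact ((Complex.measurable_ofReal.comp hχ.continuous.measurable).mul h.gm).add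
      ((Complex.measurable_ofReal.comp h.wm).mul hgr.measurable)
  · intro x hx
    by_cases hxs : x ∈ tsupport χ
    · have hxΩ : x ∈ Ω \ K := ⟨hχΩ hxs, fun h1 => hx ⟨h1, hxs⟩⟩
      obtain ⟨L, t, ht, hL⟩ := h.lip x hxΩ
      obtain ⟨D, hD⟩ := ContDiff.lipschitzWith_of_hasCompactSupport hχc hχ (by simp)
      refine ⟨L + M.toNNReal * D, t, ht, ?_⟩
      refine LipschitzOnWith.of_dist_le_mul fun y hy z hz => ?_
      rw [NNReal.coe_add, NNReal.coe_mul, Real.coe_toNNReal _ hM0, Real.dist_eq]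
      have h1 : χ y * w y - χ z * w z = χ y * (w y - w z) + w z * (χ y - χ z) := by ring
      rw [h1]
      refine (abs_add_le _ _).trans ?_
      rw [abs_mul, abs_mul, abs_of_nonneg (hχ01 y).1, add_mul]
      refine add_le_add ?_ ?_
      · have h2 := hL.dist_le_mul y hy z hz
        rw [Real.dist_eq] at h2
        calc χ y * |w y - w z| ≤ 1 * |w y - w z| :=
              mul_le_mul_of_nonneg_right (hχ01 y).2 (abs_nonneg _)
          _ ≤ L * dist y z := by rw [one_mul]; exact h2
      · have h2 := hD.dist_le_mul y z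
        rw [Real.dist_eq] at h2
        calc |w z| * |χ y - χ z| ≤ M * (D * dist y z) :=
              mul_le_mul (h.wb z) h2 (abs_nonneg _) hM0
          _ = _ := by ring
    · refine ⟨0, (tsupport χ)ᶜ, (isClosed_tsupport χ).isOpen_compl.mem_nhds hxs, ?_⟩
      refine LipschitzOnWith.of_dist_le_mul fun y hy z hz => ?_
      rw [image_eq_zero_of_notMem_tsupport hy, image_eq_zero_of_notMem_tsupport hz]
      simp
  · filter_upwards [h.hw] with x hx hxK
    by_cases hxs : x ∈ tsupport χ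
    · have hxΩ : x ∈ Ω \ K := ⟨hχΩ hxs, fun h1 => hxK ⟨h1, hxs⟩⟩
      have h1 : HasFDerivAt χ (fderiv ℝ χ x) x := (hχ.differentiable (by simp) x).hasFDerivAt
      have h2 := h1.mul (hx hxΩ)
      refine h2.congr_fderiv ?_
      ext v
      simp only [add_apply, smul_apply, innerSL_apply_apply, smul_eq_mul]
      rw [inner_add_left, ← fvGrad_inner, ← Complex.real_smul, ← Complex.real_smul,
        real_inner_smul_left, real_inner_smul_left]
    · have h1 : (fun y => χ y * w y) =ᶠ[𝓝 x] fun _ => 0 := by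
        filter_upwards [(isClosed_tsupport χ).isOpen_compl.mem_nhds hxs] with y hy
        rw [image_eq_zero_of_notMem_tsupport hy, zero_mul]
      have h2 : (χ x : ℂ) * g x + (w x : ℂ) * fvGrad χ x = 0 := by
        rw [image_eq_zero_of_notMem_tsupport hxs, hgrs x hxs]
        simp
      simp only [h2, map_zero]
      exact (hasFDerivAt_const (0 : ℝ) x).congr_of_eventuallyEq h1
  · have i1 : Integrable fun x => (χ x : ℂ) * g x := by
      have h1 : IntegrableOn g (tsupport χ) := h.gi.integrableOn_compact_subset hχΩ hχc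
      have h2 : IntegrableOn (fun x => (χ x : ℂ) * g x) (tsupport χ) := by
        refine Integrable.bdd_mul (c := 1) h1
          (Complex.continuous_ofReal.comp hχ.continuous).aestronglyMeasurable ?_
        refine Eventually.of_forall fun x => ?_
        rw [Complex.norm_real, Real.norm_eq_abs, abs_of_nonneg (hχ01 x).1]
        exact (hχ01 x).2
      refine (integrableOn_iff_integrable_of_support_subset ?_).1 h2
      intro x hx
      by_contra hcon
      apply hx
      show (χ x : ℂ) * g x = 0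
      rw [image_eq_zero_of_notMem_tsupport hcon]
      simp
    have i2 : Integrable fun x => (w x : ℂ) * fvGrad χ x := by
      have h1 : Integrable (fvGrad χ) := by
        refine hgr.integrable_of_hasCompactSupport ?_
        refine HasCompactSupport.of_support_subset_isCompact hχc fun x hx => ?_
        by_contra hcon
        exact hx (hgrs x hcon)
      refine Integrable.bdd_mul (c := M) h1
        (Complex.measurable_ofReal.comp h.wm).aestronglyMeasurable ?_
      refine Eventually.of_forall fun x => ?_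
      rw [Complex.norm_real, Real.norm_eq_abs]
      exact h.wb x
    exact i1.add i2

theorem fv_slice {Ω K : Set ℂ} {M : ℝ} {w : ℂ → ℝ} {g : ℂ → ℂ} (h : StrData Ω K M w g)
    {B : Set ℂ} (hB : IsOpen B) (hBc : IsCompact (closure B)) (hBΩ : closure B ⊆ Ω) {f : ℂ → ℂ}
    (hf : Measurable f) (hfi : IntegrableOn f (K ∩ B) (μH[1] : Measure ℂ))
    (hform : ∀ φ : ℂ → ℝ, ContDiff ℝ ∞ φ → HasCompactSupport φ → tsupport φ ⊆ B → ∀ v : ℂ,
      strT w g φ v = - ∫ x in K ∩ B, φ x * inner ℝ (f x) v ∂(μH[1] : Measure ℂ)) {v : ℂ}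
    (hv : v ≠ 0) : ∀ᵐ x ∂((μH[1] : Measure ℂ).restrict (K ∩ B)), inner ℝ (f x) v ≠ 0 →
      (∃ δ > (0 : ℝ), ∀ t ∈ Ioc (0 : ℝ) δ, x + t • v ∉ K ∧ x - t • v ∉ K) ∧
      ∃ a b : ℝ, Tendsto (fun t : ℝ => w (x + t • v)) (𝓝[>] 0) (𝓝 a) ∧
        Tendsto (fun t : ℝ => w (x - t • v)) (𝓝[>] 0) (𝓝 b) ∧
        |inner ℝ (f x) v| ≤ ‖v‖ * |a - b| := by
  obtain ⟨χ, hχ, hχc, hχΩ, hχ01, hχ1⟩ := cal_cutoff hBc h.isOpen hBΩ
  have hχB : ∀ x ∈ B, χ x = 1 := fun x hx => (hχ1 x (subset_closure hx)).self_of_nhds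
  have hχB' : ∀ x ∈ B, fvGrad χ x = 0 := by
    intro x hx
    rw [fvGrad, (hχ1 x (subset_closure hx)).fderiv_eq]
    simp
  have hBs : B ⊆ tsupport χ := by
    intro x hx
    refine subset_tsupport χ ?_
    rw [Function.mem_support, hχB x hx]
    exact one_ne_zero
  have hdat := fv_localize h hχ hχc hχΩ hχ01
  set K' := K ∩ tsupport χ with hK'
  have hKB : K ∩ B = K' ∩ B := by
    ext x
    constructor
    · rintro ⟨h1, h2⟩
      exact ⟨⟨h1, hBs h2⟩, h2⟩
    · rintro ⟨h1, h2⟩
      exact ⟨h1.1, h2⟩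
  have hKBm : MeasurableSet (K ∩ B) := by
    rw [hKB]
    exact hdat.closed.measurableSet.inter hB.measurableSet
  set μ : Measure ℂ := (μH[1] : Measure ℂ).restrict (K ∩ B) with hμ
  have hfinμ : IsFiniteMeasure μ := ⟨by
    rw [hμ, Measure.restrict_apply_univ]
    refine (measure_mono ?_).trans_lt hdat.fin
    rw [hKB]
    exact inter_subset_left⟩
  have hμB : μ Bᶜ = 0 := by
    rw [hμ, Measure.restrict_apply hB.measurableSet.compl]
    refine measure_mono_null ?_ measure_empty
    rintro x ⟨h1, h2⟩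
    exact h1 h2.2
  -- the unit vector
  have hvn : 0 < ‖v‖ := norm_pos_iff.2 hv
  set e : ℂ := (‖v‖⁻¹ : ℝ) • v with he
  have hen : ‖e‖ = 1 := by
    rw [he, norm_smul, norm_inv, norm_norm, inv_mul_cancel₀ hvn.ne']
  have hve : v = ‖v‖ • e := by
    rw [he, smul_smul, mul_inv_cancel₀ hvn.ne', one_smul]
  obtain ⟨J, hJm, hJb, hJg, hJi⟩ := fv_core hdat hen
  have hfe : Measurable fun x => (inner ℝ (f x) e : ℝ) := hf.inner measurable_const
  have hfei : Integrable (fun x => (inner ℝ (f x) e : ℝ)) μ := hfi.inner_const e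
  have hdom := fv_dom hB hμB hfe hfei hJm hJb (by
    intro φ hφ hφc hφB
    have e1 : ∫ x, φ x * inner ℝ (f x) e ∂μ = - strT w g φ e := by
      rw [hform φ hφ hφc hφB e, neg_neg]
    have e2 : strT w g φ e = strT (fun x => χ x * w x)
        (fun x => (χ x : ℂ) * g x + (w x : ℂ) * fvGrad χ x) φ e := by
      rw [strT, strT]
      congr 1
      · refine integral_congr_ae (Eventually.of_forall fun x => ?_)
        show w x * fderiv ℝ φ x e = χ x * w x * fderiv ℝ φ x e
        by_cases hx : x ∈ tsupport φ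
        · rw [hχB x (hφB hx), one_mul]
        · rw [fderiv_of_notMem_tsupport ℝ hx]
          simp
      · refine integral_congr_ae (Eventually.of_forall fun x => ?_)
        show φ x * inner ℝ (g x) e = φ x * inner ℝ ((χ x : ℂ) * g x + (w x : ℂ) * fvGrad χ x) e
        by_cases hx : x ∈ tsupport φ
        · rw [hχB x (hφB hx), hχB' x (hφB hx)]
          simp
        · rw [image_eq_zero_of_notMem_tsupport hx, zero_mul, zero_mul]
    rw [e1, enorm_neg, e2]
    refine (hJi φ hφ hφc).trans (le_of_eq ?_)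
    have e3 : ∀ x, ‖φ x‖ₑ * J x = B.indicator (fun x => ‖φ x‖ₑ * J x) x := by
      intro x
      by_cases hx : x ∈ B
      · rw [indicator_of_mem hx]
      · rw [indicator_of_notMem hx, image_eq_zero_of_notMem_tsupport fun h1 => hx (hφB h1)]
        simp
    rw [lintegral_congr e3, lintegral_indicator hB.measurableSet,
      Measure.restrict_restrict hB.measurableSet, inter_comm B K', ← hKB])
  filter_upwards [hdom, ae_restrict_mem hKBm] with x hx hxKB hne
  have hxB : x ∈ B := hxKB.2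
  have hxK' : x ∈ K' := by
    have : x ∈ K' ∩ B := hKB ▸ hxKB
    exact this.1
  have hin : inner ℝ (f x) v = ‖v‖ * inner ℝ (f x) e := by
    conv_lhs => rw [hve, real_inner_smul_right]
  have hne' : (inner ℝ (f x) e : ℝ) ≠ 0 := by
    intro h0
    exact hne (by rw [hin, h0, mul_zero])
  have hJx : J x ≠ 0 := by
    intro h0
    rw [h0, nonpos_iff_eq_zero, enorm_eq_zero] at hx
    exact hne' hx
  obtain ⟨a, b, ⟨⟨δ, hδ, hδK⟩, hta, htb⟩, hJab⟩ := hJg x hxK' hJx
  -- small balls around `x` are contained in `B`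
  obtain ⟨ρ, hρ, hball⟩ := Metric.isOpen_iff.1 hB x hxB
  have hmem : ∀ s : ℝ, 0 < s → s < ρ → x + s • e ∈ B ∧ x - s • e ∈ B := by
    intro s hs0 hs
    constructor
    · apply hball
      rw [mem_ball, dist_eq_norm, add_sub_cancel_left, norm_smul, hen, mul_one, Real.norm_eq_abs,
        abs_of_pos hs0]
      exact hs
    · apply hball
      rw [mem_ball, dist_eq_norm, sub_sub_cancel_left, norm_neg, norm_smul, hen, mul_one,
        Real.norm_eq_abs, abs_of_pos hs0]
      exact hs
  have hsc : ∀ t : ℝ, t • v = (t * ‖v‖) • e := by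
    intro t
    conv_lhs => rw [hve, smul_smul]
  have hlim : Tendsto (fun t : ℝ => t * ‖v‖) (𝓝[>] 0) (𝓝[>] 0) := by
    refine tendsto_nhdsWithin_iff.2 ⟨?_, ?_⟩
    · have : Tendsto (fun t : ℝ => t * ‖v‖) (𝓝 0) (𝓝 (0 * ‖v‖)) :=
        (continuous_id.mul continuous_const).tendsto 0
      rw [zero_mul] at this
      exact this.mono_left nhdsWithin_le_nhds
    · filter_upwards [self_mem_nhdsWithin] with t ht
      exact mul_pos ht hvn
  have hsmall : ∀ᶠ s : ℝ in 𝓝[>] 0, s < ρ ∧ 0 < s := by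
    filter_upwards [Ioo_mem_nhdsGT hρ] with s hs
    exact ⟨hs.2, hs.1⟩
  refine ⟨?_, a, b, ?_, ?_, ?_⟩
  · refine ⟨min δ (ρ / 2) / ‖v‖, by positivity, fun t ht => ?_⟩
    have ht1 : t * ‖v‖ ≤ min δ (ρ / 2) := by
      rw [← le_div_iff₀ hvn]
      exact ht.2
    have ht0 : 0 < t * ‖v‖ := mul_pos ht.1 hvn
    have h1 := hδK (t * ‖v‖) ⟨ht0, ht1.trans (min_le_left _ _)⟩
    have h2 := hmem (t * ‖v‖) ht0 (by
      have := ht1.trans (min_le_right _ _)
      linarith)
    rw [hsc]
    exact ⟨fun h3 => h1.1 ⟨h3, hBs h2.1⟩, fun h3 => h1.2 ⟨h3, hBs h2.2⟩⟩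
  · have h1 : Tendsto (fun s : ℝ => w (x + s • e)) (𝓝[>] 0) (𝓝 a) := by
      refine hta.congr' ?_
      filter_upwards [hsmall] with s hs
      rw [hχB _ (hmem s hs.2 hs.1).1, one_mul]
    refine (h1.comp hlim).congr fun t => ?_
    simp only [Function.comp, hsc]
  · have h1 : Tendsto (fun s : ℝ => w (x - s • e)) (𝓝[>] 0) (𝓝 b) := by
      refine htb.congr' ?_
      filter_upwards [hsmall] with s hs
      rw [hχB _ (hmem s hs.2 hs.1).2, one_mul]
    refine (h1.comp hlim).congr fun t => ?_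
    simp only [Function.comp, hsc]
  · rw [hJab] at hx
    rw [← ofReal_norm, ← ofReal_norm] at hx
    have h1 := (ENNReal.ofReal_le_ofReal_iff (norm_nonneg _)).1 hx
    rw [Real.norm_eq_abs, Real.norm_eq_abs] at h1
    rw [hin, abs_mul, abs_of_pos hvn]
    gcongr

end Pool.Agent.MP099f24
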